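import Pool.Agent.Results.MP_6e33d6_co.Yes
set_option autoImplicit false
open Set Pool.Agent.Results.MP_6e33d6_co.Yes
namespace Pool.Agent.H.MP_f639ae_co

theorem strong (k : ℕ) (hk : 2 ≤ k) (P : Type) [PartialOrder P] [Fintype P] :
    ∃ (Q : Type) (_ : PartialOrder Q) (_ : Fintype Q), Nonempty (P ↪o Q) ∧ dim k P < dim k Q ∧
      (∀ x : Q, dim k {y // y ≠ x} < dim k Q) ∧
      Fintype.card Q ≤ k * (2 * Fintype.card P + 2) + 4 * Fintype.card P + 7 := by
  classical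
  obtain ⟨j, rfl⟩ := Nat.exists_eq_add_of_le' hk
  obtain ⟨t, ht⟩ : ∃ t, t = 2 * Fintype.card P + 2 := ⟨_, rfl⟩
  let X := Fin (j * t + 1) ⊕ₗ Set (P ⊕ (P ⊕ Fin 3))
  let L : Fin (j * t + 1) → X := fun i => toLex (.inl i)
  let U : Set (P ⊕ (P ⊕ Fin 3)) → X := fun A => toLex (.inr A)
  let R : Set X := range L ∪ U '' BB P
  have LL {a b} : L a ≤ L b ↔ a ≤ b := Sum.Lex.inl_le_inl_iff
  have UU {a b} : U a ≤ U b ↔ a ⊆ b := Sum.Lex.inr_le_inr_iff
  have LU (a b) : L a ≤ U b := Sum.Lex.inl_le_inr a b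
  have UL {a b} : ¬U a ≤ L b := Sum.Lex.not_inr_le_inl
  have h0 : ¬Nonempty (R ↪o (Fin t → Fin (j + 2))) := by
    rintro ⟨f⟩
    let l (i) : R := ⟨L i, Or.inl ⟨i, rfl⟩⟩
    let u (A) (h : A ∈ BB P) : R := ⟨U A, Or.inr ⟨A, h, rfl⟩⟩
    have := low (I := Fin (j * t) ⊕ (P ⊕ (P ⊕ Fin 3))) f
      (Sum.elim (fun i => l i.succ) (Sum.elim (fun x => u (dn x) (Or.inl ⟨x, rfl⟩))
        fun s => u {.inr s} (Or.inr (Or.inr (Or.inl ⟨s, rfl⟩)))))
      (Sum.elim (fun i => l i.castSucc) (Sum.elim (fun x => u (yy x) (Or.inr (Or.inl ⟨x, rfl⟩)))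
        fun s => u {.inr s}ᶜ (Or.inr (Or.inr (Or.inr ⟨s, rfl⟩))))) ?_ ?_
    · simp only [Fintype.card_sum, Fintype.card_fin] at this
      nlinarith
    · rintro (i | x | s) q
      · exact (LL.1 q).not_gt i.castSucc_lt_succ
      · simpa [yy] using UU.1 q ⟨x, le_rfl, rfl⟩
      · simpa using UU.1 q rfl
    · rintro (i | x | s) (i' | x' | s') q
      · refine (lt_or_gt_of_ne fun e : i = i' => q (by rw [e])).imp (fun w => LL.2 w) fun w => LL.2 w
      · exact Or.inl (LU _ _)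
      · exact Or.inl (LU _ _)
      · exact Or.inr (LU _ _)
      · have (a b : P) (h : ¬b ≤ a) : dn a ⊆ yy b := by
          rintro _ ⟨z, hz, rfl⟩
          exact Or.inl ⟨z, fun w => h (w.trans hz), rfl⟩
        by_cases w : x' ≤ x
        · exact Or.inr (UU.2 (this _ _ fun w' => q (by rw [w.antisymm w'])))
        · exact Or.inl (UU.2 (this _ _ w))
      · exact Or.inl (UU.2 (by rintro _ ⟨z, -, rfl⟩; simp))
      · exact Or.inr (LU _ _)
      · exact Or.inr (UU.2 (by rintro _ ⟨z, -, rfl⟩; simp))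
      · exact Or.inl (UU.2 (by simpa using q.symm))
  have h1 (x : P) : Nonempty ((R \ {U (dn x)} : Set X) ↪o (Fin t → Fin (j + 2))) := by
    have e : Fin t ≃ {c : P ⊕ (P ⊕ Fin 3) // c ≠ .inl x} := (Fintype.equivFinOfCardEq (by
      simp only [Fintype.card_subtype_compl, Fintype.card_sum, Fintype.card_fin,
        Fintype.card_unique]
      omega)).symm
    let F : X → Fin t → Fin (j + 2) := fun z r => Sum.elim
      (fun i => ⟨min j (i.1 - r.1 * j), by omega⟩)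
      (fun A => ⟨j + if (e r).1 ∈ A then 1 else 0, by split_ifs <;> omega⟩) (ofLex z)
    refine ⟨.ofMapLEIff (fun z => F z.1) ?_⟩
    rintro ⟨_, ⟨i, rfl⟩ | ⟨A, hA, rfl⟩, a⟩ ⟨_, ⟨i', rfl⟩ | ⟨B, hB, rfl⟩, b⟩
    · refine ⟨fun H => LL.2 ?_, fun H r => ?_⟩
      · by_contra! q
        have q1 : i'.1 < i.1 := q
        have q2 := i.2
        have j0 : 0 < j := Nat.pos_of_ne_zero fun e => by
          have : j * t = 0 := by simp [e]
          omega
        have := H ⟨i'.1 / j, (Nat.div_lt_iff_lt_mul j0).2 (by rw [mul_comm t]; omega)⟩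
        have w1 := Nat.div_add_mod' i'.1 j
        have w2 := Nat.mod_lt i'.1 j0
        change min j (i.1 - i'.1 / j * j) ≤ min j (i'.1 - i'.1 / j * j) at this
        omega
      · have : i.1 ≤ i'.1 := LL.1 H
        change min j (i.1 - r.1 * j) ≤ min j (i'.1 - r.1 * j)
        omega
    · refine iff_of_true (fun r => ?_) (LU _ _)
      change min j (i.1 - r.1 * j) ≤ j + _
      omega
    · refine iff_of_false (fun H => ?_) UL
      obtain ⟨c, c1, c2⟩ := (drop hA hA fun e => a (by rw [e]; rfl)).1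
      have := H (e.symm ⟨c, c2⟩)
      change j + (if (e (e.symm ⟨c, c2⟩)).1 ∈ A then 1 else 0) ≤ min j _ at this
      rw [e.apply_symm_apply, if_pos c1] at this
      omega
    · refine ⟨fun H => UU.2 ((drop hA hB fun e => a (by rw [e]; rfl)).2 fun c c1 c2 => ?_),
        fun H r => ?_⟩
      · have := H (e.symm ⟨c, c2⟩)
        change j + (if (e (e.symm ⟨c, c2⟩)).1 ∈ A then 1 else 0) ≤
          j + (if (e (e.symm ⟨c, c2⟩)).1 ∈ B then 1 else 0) at this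
        rw [e.apply_symm_apply, if_pos c1] at this
        by_contra q
        rw [if_neg q] at this
        omega
      · change j + (if (e r).1 ∈ A then 1 else 0) ≤ j + (if (e r).1 ∈ B then 1 else 0)
        by_cases q : (e r).1 ∈ A
        · rw [if_pos q, if_pos (UU.1 H q)]
        · rw [if_neg q]
          omega
  obtain ⟨Q, ⟨q1, q2⟩, q3⟩ := exists_minimal_of_wellFoundedLT
    (fun Q : Set X => Q ⊆ R ∧ ¬Nonempty (Q ↪o (Fin t → Fin (j + 2)))) ⟨R, Subset.rfl, h0⟩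
  have inc {A B : Set X} (h : A ⊆ B) : A ↪o B := .ofMapLEIff (inclusion h) fun _ _ => Iff.rfl
  have m (x : P) : U (dn x) ∈ Q := by
    by_contra q
    obtain ⟨f⟩ := h1 x
    exact q2 ⟨(inc (B := R \ {U (dn x)}) fun z hz => ⟨q1 hz, fun e => q (e ▸ hz)⟩).trans f⟩
  have d : t < dim (j + 2) Q := by
    by_contra! q
    obtain ⟨f⟩ := Nat.sInf_mem (s := {n | Nonempty (Q ↪o (Fin n → Fin (j + 2)))})
      ⟨_, emb j Q⟩
    exact q2 (pad q f)
  refine ⟨Q, inferInstance, inferInstance, ⟨.ofMapLEIff (fun x => ⟨_, m x⟩) fun a b => ?_⟩,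
    lt_of_le_of_lt ((Nat.sInf_le (emb j P)).trans (by omega)) d, fun x => lt_of_le_of_lt ?_ d, ?_⟩
  · refine UU.trans ⟨fun H => by simpa [dn] using H ⟨a, le_rfl, rfl⟩, ?_⟩
    rintro H _ ⟨z, hz, rfl⟩
    exact ⟨z, hz.trans H, rfl⟩
  · refine Nat.sInf_le ?_
    by_contra q
    refine (q3 (y := Q \ {x.1}) ⟨sdiff_subset.trans q1, fun ⟨f⟩ => q ⟨.trans (OrderEmbedding.ofMapLEIff
      (fun z => ⟨z.1.1, z.1.2, fun e => z.2 (Subtype.ext e)⟩) fun _ _ => Iff.rfl) f⟩⟩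
      sdiff_subset x.2).2 rfl
  · let g : Fin (j * t + 1) ⊕ (P ⊕ P) ⊕ ((P ⊕ Fin 3) ⊕ (P ⊕ Fin 3)) → X := Sum.elim L (Sum.elim
      (Sum.elim (fun x => U (dn x)) fun x => U (yy x))
      (Sum.elim (fun s => U {.inr s}) fun s => U {.inr s}ᶜ))
    have hg (z : Q) : ∃ i, g i = z := by
      rcases q1 z.2 with ⟨i, e⟩ | ⟨A, ⟨x, rfl⟩ | ⟨x, rfl⟩ | ⟨x, rfl⟩ | ⟨x, rfl⟩, e⟩
      exacts [⟨.inl i, e⟩, ⟨.inr (.inl (.inl x)), e⟩, ⟨.inr (.inl (.inr x)), e⟩,
        ⟨.inr (.inr (.inl x)), e⟩, ⟨.inr (.inr (.inr x)), e⟩]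
    choose i hi using hg
    have := Fintype.card_le_of_injective i fun a b e => Subtype.ext (by rw [← hi, e, hi])
    simp only [Fintype.card_sum, Fintype.card_fin] at this
    rw [← ht]
    nlinarith

end Pool.Agent.H.MP_f639ae_co
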